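import Pool.Agent.T5h70.SK.Main

set_option autoImplicit false

/-!
# The separable refinement of Ky Fan's majorization holds (MP_5fe7ea_an, Q1)

For positive semidefinite `A_i` (of size `m`) and `B_i` (of size `n`), `i < p`,
`λ(∑ A_i ⊗ B_i) ≼ λ(∑ A_i^↓ ⊗ B_i^↓)`. The problem is the case `p = 2`.

Proof. Let `P` be the projection on the first `k` eigenvectors of `M = ∑ A_i ⊗ B_i`, let `ρ` be the
partial trace of `P` over the second factor, with eigenvalues `r_0 ≥ r_1 ≥ …`, and
`π_{cd} = min (r_c, d+1) - min (r_c, d) ∈ [0,1]`. For orthonormal `v_d` put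
`G_b = ∑_{d<b} (1 ⊗ v_d)* P (1 ⊗ v_d)`. Then `0 ≤ G_b ≤ ρ` and `G_b ≤ b`, so
`λ_c(G_b) ≤ min (r_c, b)`, and for every orthonormal `u_c`,
`∑_{c<a, d<b} ⟨u_c ⊗ v_d, P u_c ⊗ v_d⟩ ≤ ∑_{c<a} λ_c(G_b) ≤ ∑_{c<a, d<b} π_{cd}`. Two Abel summations
give `tr P (A ⊗ B) ≤ ∑ π_{cd} λ_c(A) λ_d(B)` for all positive semidefinite `A`, `B`, with weights
that do not depend on `A`, `B`. Sum over `i` and use Ky Fan's principle for the diagonal matrix `M'`.
-/

namespace Pool.Agent.Results.MP_5fe7ea_an.SeparableKyFan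

open Matrix
open scoped ComplexOrder Kronecker

/-- `X^↓ = diag(λ_1(X), …, λ_m(X))` (Mathlib's `eigenvalues₀` lists the eigenvalues with
multiplicity in non-increasing order). -/
noncomputable def down {m : ℕ} {X : Matrix (Fin m) (Fin m) ℂ} (hX : X.IsHermitian) :
    Matrix (Fin m) (Fin m) ℂ :=
  Matrix.diagonal fun i => ((hX.eigenvalues₀ (Fin.cast (Fintype.card_fin m).symm i) : ℝ) : ℂ)

/-- `x ≼ y` for vectors `x, y ∈ ℝ^k` with non-increasing entries: the sum of the first `t` entries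
of `x` is at most that of `y` for every `t ≤ k`, and the total sums are equal. -/
def Majorized {k : ℕ} (x y : Fin k → ℝ) : Prop :=
  Antitone x ∧ Antitone y ∧
  (∀ t : ℕ, t ≤ k → ∑ j : Fin k, (if (j : ℕ) < t then x j else 0) ≤
    ∑ j : Fin k, if (j : ℕ) < t then y j else 0) ∧ ∑ j, x j = ∑ j, y j

open Pool.Agent.T5h70.SK

lemma down_psd {m : ℕ} {X : Matrix (Fin m) (Fin m) ℂ} (hX : X.PosSemidef) :
    (down hX.1).PosSemidef := by
  refine PosSemidef.diagonal fun i => ?_
  have := eig_nonneg hX (Fin.cast (Fintype.card_fin m).symm i)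
  simpa using this

lemma sum_cast {m : ℕ} (f : Fin (Fintype.card (Fin m)) → ℝ) :
    ∑ i : Fin m, f (Fin.cast (Fintype.card_fin m).symm i) = ∑ c, f c :=
  Equiv.sum_comp (finCongr (Fintype.card_fin m).symm) f

lemma trace_down {m : ℕ} {X : Matrix (Fin m) (Fin m) ℂ} (hX : X.IsHermitian) :
    (down hX).trace = X.trace := by
  have h1 : X.trace = ∑ j, ((hX.eigenvalues₀ j : ℝ) : ℂ) := by
    rw [hX.trace_eq_sum_eigenvalues, ← Equiv.sum_comp (idx (Fin m)) (fun j =>
      ((hX.eigenvalues₀ j : ℝ) : ℂ))]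
    rfl
  rw [h1, down, Matrix.trace_diagonal,
    ← Equiv.sum_comp (finCongr (Fintype.card_fin m).symm) (fun j => ((hX.eigenvalues₀ j : ℝ) : ℂ))]
  rfl

/-- **Q1**, affirmative, for any finite number of terms. -/
theorem result (p m n : ℕ) (A : Fin p → Matrix (Fin m) (Fin m) ℂ)
    (B : Fin p → Matrix (Fin n) (Fin n) ℂ) (hA : ∀ i, (A i).PosSemidef)
    (hB : ∀ i, (B i).PosSemidef) :
    ∃ (hM : (∑ i, A i ⊗ₖ B i).IsHermitian)
      (hM' : (∑ i, down (hA i).1 ⊗ₖ down (hB i).1).IsHermitian),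
      Majorized hM.eigenvalues₀ hM'.eigenvalues₀ := by
  have hMp : (∑ i, A i ⊗ₖ B i).PosSemidef :=
    Matrix.posSemidef_sum _ fun i _ => (hA i).kronecker (hB i)
  have hMp' : (∑ i, down (hA i).1 ⊗ₖ down (hB i).1).PosSemidef :=
    Matrix.posSemidef_sum _ fun i _ => (down_psd (hA i)).kronecker (down_psd (hB i))
  refine ⟨hMp.1, hMp'.1, hMp.1.eigenvalues₀_antitone, hMp'.1.eigenvalues₀_antitone,
    fun k hk => ?_, ?_⟩
  · set P := proj (SU hMp.1) k with hPdef
    have hP : P.PosSemidef := proj_psd _ _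
    have hP' : (1 - P).PosSemidef := proj_psd' (su_right hMp.1) k
    have htr : P.trace.re = k := trace_proj (su_left hMp.1) k hk
    set r := (ptr_psd hP).1.eigenvalues₀ with hr
    have hr0 : ∀ c, 0 ≤ r c := eig_nonneg (ptr_psd hP)
    set cm : Fin m → Fin (Fintype.card (Fin m)) := Fin.cast (Fintype.card_fin m).symm with hcm
    set Q : Matrix (Fin m × Fin n) (Fin m × Fin n) ℂ :=
      diagonal (fun x => ((wt (r (cm x.1)) (x.2 : ℕ) : ℝ) : ℂ)) with hQ
    have hQp : Q.PosSemidef := by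
      refine PosSemidef.diagonal fun x => ?_
      have := wt_nonneg (r (cm x.1)) (x.2 : ℕ)
      simpa using this
    have hQp' : (1 - Q).PosSemidef := by
      rw [hQ, ← Matrix.diagonal_one, Matrix.diagonal_sub]
      refine PosSemidef.diagonal fun x => ?_
      have := wt_le_one (r (cm x.1)) (x.2 : ℕ)
      have h2 : (0 : ℝ) ≤ 1 - wt (r (cm x.1)) (x.2 : ℕ) := by linarith
      have h3 : ((0 : ℝ) : ℂ) ≤ ((1 - wt (r (cm x.1)) (x.2 : ℕ) : ℝ) : ℂ) := by
        exact_mod_cast h2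
      simpa using h3
    have hQt : Q.trace.re ≤ k := by
      rw [hQ, Matrix.trace_diagonal, Complex.re_sum, Fintype.sum_prod_type]
      simp only [Complex.ofReal_re]
      have h1 : ∀ c : Fin m, ∑ d : Fin n, wt (r (cm c)) (d : ℕ) = r (cm c) := by
        intro c
        rw [Fin.sum_univ_eq_sum_range (fun d => wt (r (cm c)) d), sum_wt _ (hr0 _)]
        have := ptr_eig_le hP hP' (cm c)
        rw [Fintype.card_fin] at this
        exact min_eq_left this
      simp only [h1]
      rw [sum_cast r, hr, sum_eig, ptr_trace, htr]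
    refine le_trans (le_of_eq (trace_proj_self hMp.1 k).symm) (le_trans ?_
      (kyfan_le hMp' Q hQp hQp' k hQt))
    have hL : (P * ∑ i, A i ⊗ₖ B i).trace.re = ∑ i, (P * (A i ⊗ₖ B i)).trace.re := by
      rw [Matrix.mul_sum, Matrix.trace_sum, Complex.re_sum]
    have hR : (Q * ∑ i, down (hA i).1 ⊗ₖ down (hB i).1).trace.re =
        ∑ i, (Q * (down (hA i).1 ⊗ₖ down (hB i).1)).trace.re := by
      rw [Matrix.mul_sum, Matrix.trace_sum, Complex.re_sum]
    rw [hL, hR]
    refine Finset.sum_le_sum fun i _ => ?_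
    refine (term_le (hA i) (hB i) hP hP').trans (le_of_eq ?_)
    have h1 : (Q * (down (hA i).1 ⊗ₖ down (hB i).1)).trace.re =
        ∑ c : Fin m, ∑ d : Fin n, (hA i).1.eigenvalues₀ (cm c) *
          ((hB i).1.eigenvalues₀ (Fin.cast (Fintype.card_fin n).symm d) *
            wt (r (cm c)) (d : ℕ)) := by
      rw [Matrix.trace, Complex.re_sum, Fintype.sum_prod_type]
      refine Finset.sum_congr rfl fun c _ => Finset.sum_congr rfl fun d _ => ?_
      rw [Matrix.diag_apply, hQ, Matrix.diagonal_mul, Matrix.kroneckerMap_apply, down, down,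
        Matrix.diagonal_apply_eq, Matrix.diagonal_apply_eq, ← Complex.ofReal_mul,
        ← Complex.ofReal_mul, Complex.ofReal_re]
      ring
    rw [h1, ← sum_cast (fun c => ∑ d, (hA i).1.eigenvalues₀ c * ((hB i).1.eigenvalues₀ d *
      wt (r c) (d : ℕ)))]
    refine Finset.sum_congr rfl fun c _ => ?_
    rw [← sum_cast (fun d => (hA i).1.eigenvalues₀ (cm c) * ((hB i).1.eigenvalues₀ d *
      wt (r (cm c)) (d : ℕ)))]
    rfl
  · rw [sum_eig, sum_eig, Matrix.trace_sum, Matrix.trace_sum]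
    congr 1
    refine Finset.sum_congr rfl fun i _ => ?_
    rw [Matrix.trace_kronecker, Matrix.trace_kronecker, trace_down, trace_down]

end Pool.Agent.Results.MP_5fe7ea_an.SeparableKyFan
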